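import Pool.Agent.H92.SG.Stmts

/-!
# Module ABSZ: the abstract statement applied to the integral system
-/

set_option autoImplicit false

namespace Pool.Agent.H71.SG

open Pool.Agent.H92.SG

section ext

variable {A : Type} [CommRing A] (N b : ℕ)

/-- Extension by zero of a vector on the knot strands and the extra strands. -/
def ext : (Fin N ⊕ Fin b → A) →ₗ[A] (ℕ → A) where
  toFun x := fun i => if h : i < N then x (Sum.inl ⟨i, h⟩) else
    if h' : i - N < b then x (Sum.inr ⟨i - N, h'⟩) else 0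
  map_add' x y := by
    funext i; simp only [Pi.add_apply]; split_ifs <;> simp
  map_smul' r x := by
    funext i; simp only [Pi.smul_apply, smul_eq_mul, RingHom.id_apply]; split_ifs <;> simp

theorem ext_lt (x : Fin N ⊕ Fin b → A) {i : ℕ} (h : i < N) :
    ext N b x i = x (Sum.inl ⟨i, h⟩) := by simp [ext, h]

theorem ext_inl (x : Fin N ⊕ Fin b → A) (i : Fin N) :
    ext N b x i = x (Sum.inl i) := by simp [ext]

theorem ext_inr (x : Fin N ⊕ Fin b → A) (i : Fin b) :
    ext N b x (N + i) = x (Sum.inr i) := by simp [ext]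

theorem ext_ge (x : Fin N ⊕ Fin b → A) {i : ℕ} (h : N + b ≤ i) : ext N b x i = 0 := by
  have h1 : ¬ i < N := by omega
  have h2 : ¬ i - N < b := by omega
  simp [ext, h1, h2]

theorem ext_eq_zero {x : Fin N ⊕ Fin b → A} (h : ext N b x = 0) : x = 0 := by
  funext p
  rcases p with i | i
  · rw [← ext_inl N b x i, h]; rfl
  · rw [← ext_inr N b x i, h]; rfl

end ext

section omZ

variable {A : Type} [CommRing A]

theorem omZ_add (N : ℕ) (x x' y : ℕ → A) : omZ N (x + x') y = omZ N x y + omZ N x' y := by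
  unfold omZ
  rw [← Finset.sum_add_distrib]
  refine Finset.sum_congr rfl fun j _ => ?_
  rw [← Finset.sum_add_distrib]
  refine Finset.sum_congr rfl fun i _ => ?_
  simp only [Pi.add_apply]; ring

theorem omZ_zero (N : ℕ) (y : ℕ → A) : omZ N 0 y = 0 := by
  unfold omZ
  exact Finset.sum_eq_zero fun j _ => Finset.sum_eq_zero fun i _ => by simp

theorem omZ_map {A' : Type} [CommRing A'] (f : A →+* A') (N : ℕ) (x y : ℕ → A) :
    f (omZ N x y) = omZ N (fun i => f (x i)) (fun i => f (y i)) := by
  unfold omZ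
  rw [map_sum]
  refine Finset.sum_congr rfl fun j _ => ?_
  rw [map_sum]
  refine Finset.sum_congr rfl fun i _ => ?_
  simp

/-- Orthogonality of a vector on the first `N` strands with alternating sum zero and a vector
on the other strands. -/
theorem omZ_orth (N b : ℕ) (u y : ℕ → A) (hu : ∀ i, N ≤ i → u i = 0)
    (hs : ∑ i ∈ Finset.range N, (-1 : A) ^ i * u i = 0) (hy : ∀ i < N, y i = 0) :
    omZ (N + b) u y = 0 := by
  unfold omZ
  refine Finset.sum_eq_zero fun j _ => ?_
  by_cases hj : j < N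
  · refine Finset.sum_eq_zero fun i hi => ?_
    have hi' := Finset.mem_range.mp hi
    rw [hy j hj, hy i (by omega)]; ring
  · have h1 : ∀ i ∈ Finset.range j, (-1 : A) ^ (i + j) * (u i * y j - u j * y i) =
        ((-1 : A) ^ i * u i) * ((-1) ^ j * y j) := by
      intro i _
      rw [hu j (by omega)]; ring
    rw [Finset.sum_congr rfl h1, ← Finset.sum_mul]
    have h2 : ∑ i ∈ Finset.range j, (-1 : A) ^ i * u i = 0 := by
      rw [← hs]
      symm
      refine Finset.sum_subset (Finset.range_subset_range.mpr (by omega)) fun i _ hi => ?_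
      rw [hu i (by simpa using hi)]; ring
    rw [h2]; ring

end omZ

theorem band_mem {N : ℕ} {x : B} (h : IsBand N x) : x ∈ Bn N := by
  obtain ⟨w, hw, i, hi, rfl | rfl⟩ := h
  · exact mul_mem (mul_mem hw (σ_mem_Bn hi)) (inv_mem hw)
  · exact mul_mem (mul_mem hw (inv_mem (σ_mem_Bn hi))) (inv_mem hw)

theorem ABSZ_thm (hABSB : AbsBStmt) (hL4 : L4Stmt) (hDA : DihA) (hDB : DihB)
    (hDQ : DihBandStmt) (hN0 : N0ZStmt) : AbsZStmt := by
  intro N b κ l hN hκ hl hprod hconn
  have hmem : ∀ j : Fin l.length, IsBand (N + b) (l.get j) := fun j => hl _ (List.get_mem l j)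
  choose P Q U hU hPQ hW hP0 hQ0 using fun j : Fin l.length => hDQ ℤ_[3] (N + b) (l.get j) (hmem j)
  obtain ⟨M, hM, hMe⟩ := hL4 ℤ_[3] (RingHom.id _) (ℕ → ℤ_[3]) 1 l.length P Q
    (fun x y => omZ (N + b) x y) (fun x x' y => omZ_add _ x x' y) U hU
    (fun j u y => by simpa using hW j u y)
  -- the product of the maps is the action of `κ`
  have hprod' : ∀ x : ℕ → ℤ_[3],
      (List.ofFn fun j => (1 : Module.End ℤ_[3] (ℕ → ℤ_[3])) + P j ∘ₗ Q j).prod x =
        dih ℤ_[3] κ x := by
    intro x
    set F : B →* Module.End ℤ_[3] (ℕ → ℤ_[3]) :=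
      (LinearEquiv.automorphismGroup.toLinearMapMonoidHom).comp (dih ℤ_[3]) with hF
    have h1 : l.map F = List.ofFn fun j : Fin l.length => F (l.get j) := by
      conv_lhs => rw [← List.ofFn_get l]
      rw [List.map_ofFn]; rfl
    have h2 : (List.ofFn fun j => (1 : Module.End ℤ_[3] (ℕ → ℤ_[3])) + P j ∘ₗ Q j) =
        l.map F := by
      rw [h1]
      congr 1
      funext j
      refine LinearMap.ext fun a => ?_
      simp only [LinearMap.add_apply, Module.End.one_apply, LinearMap.comp_apply]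
      exact (hPQ j a).symm
    rw [h2, ← map_list_prod, hprod]
    rfl
  have hform : ∀ x y : ℕ → ℤ_[3], omZ (N + b) (dih ℤ_[3] κ x - x) y =
      sesq (RingHom.id ℤ_[3]) M (fun p => (Q p.1) x p.2) fun p => (Q p.1) y p.2 := by
    intro x y
    rw [← hMe x y, hprod' x]
  -- the map `D`
  let D : (Fin N ⊕ Fin b → ℤ_[3]) →ₗ[ℤ_[3]] (Fin l.length × Fin 1 → ℤ_[3]) :=
    { toFun := fun x p => Q p.1 (ext N b x) p.2
      map_add' := fun x y => by funext p; simp
      map_smul' := fun r x => by funext p; simp }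
  have hD : ∀ x p, D x p = Q p.1 (ext N b x) p.2 := fun _ _ => rfl
  have hformD : ∀ x y, sesq (RingHom.id ℤ_[3]) M (D x) (D y) =
      omZ (N + b) (dih ℤ_[3] κ (ext N b x) - ext N b x) (ext N b y) := by
    intro x y
    exact (hform _ _).symm
  -- the difference is supported on the knot strands and has alternating sum zero
  have hsupp : ∀ (y : ℕ → ℤ_[3]) (i : ℕ), N ≤ i → (dih ℤ_[3] κ y - y) i = 0 := by
    intro y i hi
    simp only [Pi.sub_apply]
    rw [hDB.loc1 ℤ_[3] N κ hκ y i hi, sub_self]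
  have halt : ∀ y : ℕ → ℤ_[3],
      ∑ i ∈ Finset.range N, (-1 : ℤ_[3]) ^ i * (dih ℤ_[3] κ y - y) i = 0 := by
    intro y
    simp only [Pi.sub_apply, mul_sub]
    rw [Finset.sum_sub_distrib, hDB.alt ℤ_[3] N κ hκ y, sub_self]
  have hzero : ∀ x : Fin N ⊕ Fin b → ℤ_[3], (∀ i : Fin N, x (Sum.inl i) = 0) →
      ∀ i < N, ext N b x i = 0 := by
    intro x hx i hi
    rw [ext_lt N b x hi]; exact hx _
  have hfix : ∀ x : Fin N ⊕ Fin b → ℤ_[3], (∀ i : Fin N, x (Sum.inl i) = 0) →
      dih ℤ_[3] κ (ext N b x) - ext N b x = 0 := by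
    intro x hx
    funext i
    by_cases hi : i < N
    · have h1 := hDB.loc2 ℤ_[3] N κ hκ (ext N b x) 0 (fun i hi => hzero x hx i hi) i hi
      simp only [Pi.sub_apply]
      rw [h1, hzero x hx i hi]
      simp
    · exact hsupp _ i (by omega)
  have hred : ∀ x : ℤ_[3], PadicInt.toZMod x = 0 ↔ (3 : ℤ_[3]) ∣ x := by
    intro x
    rw [← RingHom.mem_ker, PadicInt.ker_toZMod, PadicInt.maximalIdeal_eq_span_p,
      Ideal.mem_span_singleton]
    norm_num
  have hprime : Prime (3 : ℤ_[3]) := by
    have := PadicInt.prime_p (p := 3)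
    simpa using this
  obtain ⟨S, hS1, hS2⟩ := hABSB ℤ_[3] (ZMod 3) PadicInt.toZMod 3 (ZMod.ringHom_surjective _)
    hprime hred (RingHom.id _) (RingHom.id _) (fun x => rfl) (fun x => rfl) rfl
    (Fin N) (Fin b) (Fin l.length × Fin 1) D M hM
    (by
      intro x hx y
      rw [hformD, hfix x hx, omZ_zero])
    (by
      intro x hx y
      rw [hformD]
      exact omZ_orth N b _ _ (hsupp _) (halt _) (hzero x hx))
    (by
      intro x hx hDx
      apply ext_eq_zero N b
      refine hN0 (N + b) l (fun z hz => band_mem (hl z hz)) hconn (ext N b x)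
        (fun i hi => ext_ge N b x hi) (hzero x hx 0 hN) ?_
      intro z hz
      obtain ⟨j, rfl⟩ := List.get_of_mem hz
      rw [hPQ j]
      have : Q j (ext N b x) = 0 := by
        funext p
        exact congrFun hDx (j, p)
      rw [this, map_zero, add_zero])
  refine ⟨S, ?_, ?_⟩
  · intro v hv
    obtain ⟨n, x, y, h1, h2, h3⟩ := hS1 v hv
    refine ⟨n, fun i => if h : i < N then x ⟨i, h⟩ else 0, ext N b y, ?_, ?_, ?_⟩
    · intro i
      simpa using h1 i
    · intro i hi
      rw [ext_lt N b y hi, h2]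
      simp [hi]
    · intro z hz i
      obtain ⟨j, rfl⟩ := List.get_of_mem hz
      rw [hPQ j]
      simp only [Pi.add_apply, add_sub_cancel_left]
      choose q hq using fun p : Fin 1 => h3 (j, p)
      have h4 : Q j (ext N b y) = (3 : ℤ_[3]) ^ (n + 1) • q := by
        funext p
        exact hq p
      rw [h4, map_smul]
      exact ⟨P j q i, rfl⟩
  · intro T hT
    have h5 := hS2 T (by
      intro x hx y
      rw [hformD, omZ_map]
      have h6 : (fun i => PadicInt.toZMod ((dih ℤ_[3] κ (ext N b x) - ext N b x) i)) = 0 := by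
        funext i
        simp only [Pi.sub_apply, map_sub, Pi.zero_apply]
        have h7 := congrFun (hDA.nat ℤ_[3] (ZMod 3) PadicInt.toZMod κ (ext N b x)) i
        rw [← h7, hT _ hx (fun i => PadicInt.toZMod (ext N b x i))
          (fun i => by rw [ext_inl]), sub_self]
      rw [h6, omZ_zero])
    simpa using h5

end Pool.Agent.H71.SG
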